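import Mathlib
import Pool.Agent.H455.GCD
import Pool.Agent.H455.GC_BAS
import Pool.Agent.H455.GC_RED
import Pool.Agent.H455.GC_PTS
import Pool.Agent.H455.GC_TRC
import Pool.Agent.H455.GC_DIF
import Pool.Agent.H455.GC_INTG
import Pool.Agent.H455.GC_DEG
import Pool.Agent.H455.GC_NZ
import Pool.Agent.H455.GC_TPA
import Pool.Agent.H455.GC_TP
import Pool.Agent.H455.GC_DSC0
import Pool.Agent.H455.GC_DSC
import Pool.Agent.H455.GC_VAN
import Pool.Agent.H455.GC_GAIN
import Pool.Agent.H455.GC_FS
import Pool.Agent.H455.GC_NS
import Pool.Agent.H455.GC_CMP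
import Pool.Agent.H455.GC_HA
import Pool.Agent.H455.GC_SQ
import Pool.Agent.H455.GCF

/-!
# The logarithmic error term in Vojta's inequality fails on every curve

Let `k` be a number field, `X` a smooth projective curve over `k` and `t` a nonconstant rational
function on `X`. Let `A` be the ring of all rational functions which are regular outside the poles of
`t`, a Dedekind domain which is a finite torsion free `k[t]`-module; the homomorphisms of `k`-algebras
`x : A → k^alg` are the points of `X` over `k^alg` other than the poles of `t`. (Every `A` as below is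
of this form.) Let `D = D₀ + D_∞` be the reduced divisor of all zeros and poles of `t`.

**The canonical divisor.** The differential `dt / t` has simple poles at the points of `D` and a zero
of order `e_P - 1` at a point `P` outside `D` with ramification index `e_P`. So
`K_X ∼ R - D₀ - D_∞` with `R = ∑_{P ∉ D} (e_P - 1) P`, the ramification divisor outside `D`. In `A`,
`ord_P(𝔡) = e_P - 1` for the different `𝔡` of `A` over `k[t]`.

**Weil functions.** A finite family `f` of functions `f_i = a_i / t ^ (j_i)`, `a_i ∈ A`, given by the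
pairs `(a_i, j_i)`, defines the effective divisor `E(f) = ∑_P max(0, min_i ord_P(f_i)) P` on `X`, and
`log⁺(1 / max_i |f_i(x)|_w)` is a Weil function for `E(f)`. Every effective divisor whose support does
not contain `D` is of the form `E(f)`. We consider
* families `f` with numerators `a_i ∈ 𝔡`, not all zero, so `E(f) ≥ R`, with `E(f) = R` for
  suitable `f` (`a_i t^(-j)` and `a_i t^j` for generators `a_i` of `𝔡` and large `j`);
* families `g` which contain `t`, so `E(g)` is at most the divisor of zeros of `t`, with `E(g) = D₀` for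
  suitable `g` (`t` and generators of the radical of `t A`);
* families `h` which contain `1 / t`, so `E(h)` is at most the divisor of poles of `t`, with
  `E(h) = D_∞` for suitable `h` (`1 / t` and a basis of `L(N D₀ - D_∞)`, `N` large);
* arbitrary families `e`: an effective divisor `E(e)` may be added to `D`.
So `height f - height g - height h` is the height `h_{K_X}` and `mS g + mS h + mS e` the proximity
function of `D' = D + E(e)` when `f`, `g`, `h` are suitable. These are relative to `k`.

**Heights for ample sheaves.** `heightA` is the height for `t^* O(1)`; the height `H` for any other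
sheaf satisfies `|H| ≤ B (1 + heightA)` for some `B`.

**The base field.** Let the curve be defined over a subfield `k₀` of `k`, `X = X₀ ×_{k₀} k` (so `t` may
be any nonconstant function on `X₀` over `k^alg`, and `D` may be replaced by any divisor over `k₀`
which contains it). Heights and proximity functions relative to `k₀` are those relative to `k` divided
by `[k : k₀]`, and the residue field `k₀(x)` of the point of `X₀` below `x` is a subfield `F` of
`k(x)` which contains `k₀`. In the result `F` is any such subfield. For `k = k₀` one may take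
`F = k(x)`.

**Coverings.** Let `π : X → X₁` be an étale covering of a curve `X₁` which is defined over `k₀`, and
`D₁` a reduced divisor on `X₁` with `π(D) ⊆ D₁`. Then `π^* K_{X₁} = K_X`, `π^* D₁ ≥ D` is reduced, and
the residue field of `π(x)` is a subfield of `k(x)`. By the functoriality of heights and proximity
functions the result for `x` is one for the points `π(x)` of `X₁`: for example `D₁` is a single point
for every elliptic curve (`π` the multiplication by `2`, `t = (x - e₁) / (x - e₂)`).
-/

set_option autoImplicit false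

namespace Pool.Agent.Results.MP_e44225_nt.EveryCurve

open NumberField Real Polynomial Module
open Pool.Agent.H455.GC

/-- The inequality of Q1 fails over `k₀` for the curve `X` and every reduced divisor `D' ≥ D`, `D` the
zeros and poles of `t`, `S` the set of all infinite places and of all places above the primes in a
finite set `T`: there are `r` and `c > 0` such that for every `T`, every `C < c (|T| - 1)` and every
`b` infinitely many points `x` of degree at most `r` over `k₀` satisfy
`C log⁺ H(x) + d(x) + b ≤ h_{K_X}(x) + m_S(D', x)`, heights, `m_S` and `d(x)` relative to `k₀`. -/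
def LogTermFails (k₀ k : Type) [Field k₀] [NumberField k₀] [Field k] [NumberField k]
    [Algebra k₀ k] (A : Type) [CommRing A] [IsDedekindDomain A]
    [Algebra k A] [Algebra k[X] A] [IsScalarTower k k[X] A] [Module.Finite k[X] A]
    [Module.IsTorsionFree k[X] A] : Prop :=
  ∃ (r : ℕ) (c : ℝ), 0 < c ∧ ∀ (T : Finset ℕ), (∀ p ∈ T, p.Prime) →
    ∀ (l m n o : ℕ) (f : Fin l → A × ℕ) (g : Fin m → A × ℕ) (h : Fin n → A × ℕ)
      (e : Fin o → A × ℕ),
    (∀ i, (f i).1 ∈ differentIdeal k[X] A) → (∃ i, (f i).1 ≠ 0) →
    (∃ i, g i = (tt k A, 0)) → (∃ i, h i = (1, 1)) →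
    ∀ (H : (A →ₐ[k] AlgebraicClosure k) → ℝ) (B : ℝ),
      (∀ x, |H x| ≤ B * (1 + heightA k x)) →
    ∀ C b : ℝ, 0 < C → C < c * ((T.card : ℝ) - 1) →
      {x : A →ₐ[k] AlgebraicClosure k | x (tt k A) ≠ 0 ∧ finrank k₀ (resK k x) ≤ r ∧
        ∀ F : IntermediateField k₀ (resK k x),
          C * log⁺ (H x) + log |(discr F : ℝ)| / finrank k₀ F + b ≤
            ((height k f x - height k g x - height k h x) +
              (mS k T g x + mS k T h x + mS k T e x)) / finrank k₀ k}.Infinite

theorem S_GAIN' : S_GAIN :=
  Pool.Agent.H455.GC_GAIN.main (Pool.Agent.H455.GC_PTS.main Pool.Agent.H455.GC_RED.main)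
    Pool.Agent.H455.GC_NZ.main Pool.Agent.H455.GC_VAN.main

theorem S_DSC' : S_DSC :=
  Pool.Agent.H455.GC_DSC.main
    (Pool.Agent.H455.GC_TRC.main Pool.Agent.H455.GC_BAS.main
      (Pool.Agent.H455.GC_PTS.main Pool.Agent.H455.GC_RED.main))
    Pool.Agent.H455.GC_DIF.main Pool.Agent.H455.GC_INTG.main Pool.Agent.H455.GC_DEG.main
    (Pool.Agent.H455.GC_DSC0.main (Pool.Agent.H455.GC_TP.main Pool.Agent.H455.GC_TPA.main))

theorem fails_of_point (k₀ k : Type) [Field k₀] [NumberField k₀] [Field k] [NumberField k]
    [Algebra k₀ k] (A : Type) [CommRing A]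
    [IsDedekindDomain A] [Algebra k A] [Algebra k[X] A] [IsScalarTower k k[X] A]
    [Module.Finite k[X] A] [Module.IsTorsionFree k[X] A]
    (Q₀ : A →ₐ[k] AlgebraicClosure k) (hQ : Q₀ (tt k A) ≠ 0)
    (hR : ∀ a ∈ differentIdeal k[X] A, Q₀ a = 0) : LogTermFails k₀ k A := by
  obtain ⟨r, c, hc0, hc⟩ := mainAllG S_DSC' Pool.Agent.H455.GC_DEG.main
    (Pool.Agent.H455.GC_NS.main Pool.Agent.H455.GC_FS.main)
    (Pool.Agent.H455.GC_CMP.main Pool.Agent.H455.GC_FS.main) Pool.Agent.H455.GC_HA.main
    Pool.Agent.H455.GC_FS.main S_GAIN' Pool.Agent.H455.GC_NZ.main k A Q₀ hQ hR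
  haveI : IsScalarTower ℚ k₀ k := IsScalarTower.of_algebraMap_eq' (Subsingleton.elim _ _)
  haveI : FiniteDimensional k₀ k := FiniteDimensional.right ℚ k₀ k
  have he0 : (0 : ℝ) < finrank k₀ k := by exact_mod_cast finrank_pos
  refine ⟨finrank k₀ k * r, c / finrank k₀ k, by positivity, ?_⟩
  intro T hT l m n o f g h e hf hf0 hg hh H B hH C b hC hCT
  have hCT' : C * finrank k₀ k < c * ((T.card : ℝ) - 1) := by
    have := mul_lt_mul_of_pos_right hCT he0
    calc C * (finrank k₀ k : ℝ) < _ := this
      _ = _ := by field_simp
  refine (hc T hT l m n f g h hf hf0 hg hh (C * finrank k₀ k)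
    ((b + C * (log⁺ B + log 2)) * finrank k₀ k) (by positivity) hCT').mono ?_
  rintro x ⟨hx1, hx2, hx3⟩
  refine ⟨hx1, ?_, ?_⟩
  · rw [← finrank_mul_finrank k₀ k (resK k x)]
    exact Nat.mul_le_mul_left _ hx2
  intro F
  have h0 : 0 ≤ heightA k x := by
    unfold heightA
    exact div_nonneg (Height.zero_le_logHeight₁ _) (Nat.cast_nonneg _)
  have h1 : log⁺ (H x) ≤ log⁺ B + (log 2 + log⁺ (heightA k x)) := by
    calc log⁺ (H x) = log⁺ |H x| := (Real.posLog_abs _).symm
      _ ≤ log⁺ (B * (1 + heightA k x)) := Real.posLog_le_posLog (abs_nonneg _) (hH x)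
      _ ≤ log⁺ B + log⁺ (1 + heightA k x) := Real.posLog_mul
      _ ≤ log⁺ B + (log 2 + log⁺ 1 + log⁺ (heightA k x)) := by
          have := Real.posLog_add (x := 1) (y := heightA k x)
          linarith
      _ = log⁺ B + (log 2 + log⁺ (heightA k x)) := by
          rw [Real.posLog_one]
          ring
  have h2 := mul_le_mul_of_nonneg_left h1 hC.le
  have h3 : 0 ≤ mS k T e x := by
    unfold mS
    refine div_nonneg (add_nonneg ?_ ?_) (Nat.cast_nonneg _)
    · exact Finset.sum_nonneg fun w _ => mul_nonneg (Nat.cast_nonneg _) (loc_nonneg _ _)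
    · exact Finset.sum_nonneg fun w _ => loc_nonneg _ _
  have h5 : log |(discr F : ℝ)| / finrank k₀ F ≤ logDisc k x / finrank k₀ k :=
    sub_disc k₀ k (resK k x) F
  have h6 : (C * finrank k₀ k * log⁺ (heightA k x) + logDisc k x +
      (b + C * (log⁺ B + log 2)) * finrank k₀ k) / (finrank k₀ k : ℝ) ≤
      ((height k f x - height k g x - height k h x) +
        (mS k T g x + mS k T h x + mS k T e x)) / finrank k₀ k :=
    div_le_div_of_nonneg_right (by linarith) he0.le
  have h7 : (C * finrank k₀ k * log⁺ (heightA k x) + logDisc k x +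
      (b + C * (log⁺ B + log 2)) * finrank k₀ k) / (finrank k₀ k : ℝ) =
      C * log⁺ (heightA k x) + logDisc k x / finrank k₀ k + (b + C * (log⁺ B + log 2)) := by
    field_simp
  rw [h7] at h6
  have h4 : C * (log⁺ B + (log 2 + log⁺ (heightA k x))) =
      C * (log⁺ B + log 2) + C * log⁺ (heightA k x) := by ring
  rw [h4] at h2
  linarith

/-- **The logarithmic error term fails on every curve.** Let `X₀` be a smooth projective curve over a
number field `k₀`, `k` a finite extension of `k₀`, `t` a nonconstant rational function on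
`X = X₀ ×_{k₀} k`, and `D` the reduced divisor of the zeros and poles of `t`.
(1) If `t` has a ramification point `Q₀` outside `D` then the inequality of Q1 fails for
`(k₀, X₀, D')`, for all reduced `D' ≥ D` and every ample sheaf.
(2) This is so for every function of the form `t = 1 + c s²`: for every curve `X`, every nonconstant
rational function `s` on `X` and every `c ∈ k^*`, the inequality fails for the reduced divisor `D` of
all poles of `s` and all zeros of `1 + c s²`. -/
theorem result (k₀ k : Type) [Field k₀] [NumberField k₀] [Field k] [NumberField k]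
    [Algebra k₀ k] (A : Type) [CommRing A] [IsDedekindDomain A]
    [Algebra k A] [Algebra k[X] A] [IsScalarTower k k[X] A] [Module.Finite k[X] A]
    [Module.IsTorsionFree k[X] A] :
    (∀ Q₀ : A →ₐ[k] AlgebraicClosure k, Q₀ (tt k A) ≠ 0 →
      (∀ a ∈ differentIdeal k[X] A, Q₀ a = 0) → LogTermFails k₀ k A) ∧
    (∀ (c : k) (s : A), c ≠ 0 → tt k A = 1 + algebraMap k A c * s ^ 2 →
      LogTermFails k₀ k A) := by
  refine ⟨fun Q₀ hQ hR => fails_of_point k₀ k A Q₀ hQ hR, ?_⟩
  intro c s hc hs
  obtain ⟨Q₀, hQ, hR⟩ := Pool.Agent.H455.GC_SQ.main k A c s hc hs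
  exact fails_of_point k₀ k A Q₀ hQ hR

end Pool.Agent.Results.MP_e44225_nt.EveryCurve
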