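import Mathlib
import Pool.Agent.H505.VL.Main

/-!
# The logarithmic error term fails on all smooth plane curves and all hyperelliptic curves

Let `k` be any number field and `X` any smooth curve `F(X, Y, Z) = 0` of degree `n m` in the
weighted projective plane `P(1, m, 1)` over `k` which does not contain the point `(0 : 1 : 0)`
(`m, n ≥ 1`). For `m = 1` these are the smooth plane curves of degree `n` (every one after a
projective change of coordinates over `k`), of genus `(n - 1) (n - 2) / 2`; for `n = 2` these are
the curves `Y² + a(X, Z) Y + b(X, Z) = 0` of genus `m - 1`, for example all hyperelliptic curves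
`y² = f(x)` with `f` separable of degree `2 m`.

`t = (X : Z) : X → P¹` has degree `n`, `A = O_X(1) = t^* O(1)` is ample, and
`K_X = O_X(n m - m - 2)` by the adjunction formula. For a finite set `B` of points of `P¹(k)` over
which `t` is unramified, `D = t^* B` is a reduced effective divisor. We show:

1. `t` is unramified over all but finitely many points of `P¹(k)`;
2. if `B` has at least three points, then for every finite set `T` of rational primes, every `C`
   with `0 < C < [k : ℚ] (|T| - 1)` and every `β`, infinitely many points `P` of `X` of degree at
   most `n` over `k` satisfy `h_K(P) + m_S(D, P) ≥ C log⁺ h_A(P) + d(P) + β`, where `S` consists of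
   all infinite places of `k` and all places above the primes of `T`.

So no constant `C` which depends on `(k, X, D, A)` only is admissible in Q1, on any of these curves.
The definitions (with explanations) are in `Pool/Agent/H505/VL/Defs.lean`.
-/

set_option autoImplicit false

namespace Pool.Agent.Results.MP_e44225_nt.EveryGenus

open NumberField Real Polynomial Module
open Pool.Agent.H505.VL

/-- **The logarithmic error term fails on smooth curves in `P(1, m, 1)`.** Let `k` be a number field
and `m, n ≥ 1`.
(0) The Fermat curve `Y ^ n = X ^ (n m) + Z ^ (n m)` is such a curve (of genus `m - 1` if `n = 2`).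
(1) For every such curve `X`, `t` is unramified over all but finitely many points of `P¹(k)`.
(2) For every such curve `X`, every finite `B ⊆ P¹(k)` with at least three points, every finite set
`T` of primes, every `0 < C < [k : ℚ] (|T| - 1)` and every `β` there are infinitely many points
`P = (x : y : 1)` on `X`, outside `D = t^* B`, with `[k(P) : k] ≤ n` and
`C log⁺ h_A(P) + d(P) + β ≤ h_K(P) + m_S(D, P)`. -/
theorem result (k : Type) [Field k] [NumberField k] (m n : ℕ) (hm : 1 ≤ m) (hn : 1 ≤ n) :
    SmoothCurve k m n (MvPolynomial.X 1 ^ n - MvPolynomial.X 0 ^ (n * m) -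
      MvPolynomial.X 2 ^ (n * m)) ∧
    ∀ F : MvPolynomial (Fin 3) k, SmoothCurve k m n F →
      {b : Option k | ¬ (fibre F b).Separable}.Finite ∧
      ∀ B : Finset (Option k), 3 ≤ B.card → ∀ T : Finset ℕ, (∀ p ∈ T, p.Prime) →
        ∀ C β : ℝ, 0 < C → C < (finrank ℚ k : ℝ) * ((T.card : ℝ) - 1) →
        {P : AlgebraicClosure k × AlgebraicClosure k |
          MvPolynomial.aeval ![P.1, P.2, 1] F = 0 ∧
          (∀ b : k, some b ∈ B → P.1 ≠ algebraMap k (AlgebraicClosure k) b) ∧
          finrank k (resField k P) ≤ n ∧
          C * log⁺ (heightA k P) + logDisc k P + β ≤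
            heightK k m n P + prox k T B P}.Infinite :=
  ⟨Main.fermat_smooth k m n hm hn, fun F hF => ⟨FIB.main k m n F hm hn hF,
    fun B hB T hT C β hC0 hC => Main.main k m n hm hn F hF B hB T hT C β hC0 hC⟩⟩

end Pool.Agent.Results.MP_e44225_nt.EveryGenus
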