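import Mathlib
import Pool.Agent.H455.WPC
import Pool.Agent.H455.WPE_EF
import Pool.Agent.H455.WPE_FLD
import Pool.Agent.H455.WPE_HTR
import Pool.Agent.H455.WPE_BCE
import Pool.Agent.H455.WPE_NOR

/-!
# The logarithmic error term in Vojta's inequality: all divisors on elliptic curves, and the fibre
over infinity on hyperelliptic curves

Let `k` be a number field. For a finite set `T` of primes let `S` consist of all infinite places
of `k` and of the places above the primes in `T`.

* `E` an elliptic curve over `k`, given by any Weierstrass equation, `D` a finite set of points of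
  `E(k^alg)` (a reduced effective divisor on `E` if it is stable under the Galois group), `h_K = 0`,
  `A = O_E(2 O) = x^* O(1)`. If `D ≠ 0` the inequality
  `h_K(P) + m_S(D, P) < C log⁺ h_A(P) + d(P) + b` fails for every `C < [k : ℚ] (|T| - 1) / 2`, every
  `b`, at infinitely many points of degree at most `r`, where `r` does not depend on `T`, `C`, `b`;
  so no constant `C` works for all `S`. If `D = 0` it holds for all `C > 0`. So on an elliptic
  curve the statement of Q1 holds if and only if `D = 0`.
* `X : y² = f(x)`, `f` separable of degree `d ≥ 3`, a curve of genus `g = ⌊(d - 1) / 2⌋`. The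
  canonical sheaf is `K_X = (g - 1) x^* O(1)`, and `D` is the reduced fibre of `x` over `∞`: one
  point, and `x^* ∞ = 2 D`, if `d` is odd; two points, and `x^* ∞ = D`, if `d` is even. The
  inequality fails in the same way.
-/

set_option autoImplicit false

namespace Pool.Agent.Results.MP_e44225_nt.SmallestDivisors

open NumberField Real Polynomial Module
open Pool.Agent.H505.VL Pool.Agent.H455.WP

/-- The genus of the smooth projective curve `y² = f(x)`, `f` separable of degree `d ≥ 1`. -/
def genus (d : ℕ) : ℕ := (d - 1) / 2

/-- The height for the canonical sheaf `K_X = (g - 1) x^* O(1)` of the curve `y² = f(x)`. -/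
noncomputable def heightK (k : Type) [Field k] [NumberField k] (f : k[X])
    (P : AlgebraicClosure k × AlgebraicClosure k) : ℝ :=
  ((genus f.natDegree : ℝ) - 1) * heightA k P

/-- The proximity function `m_S(D, P)` of the reduced fibre `D` of `x` over `∞` on the curve
`y² = f(x)`: `x^* ∞ = 2 D` if the degree of `f` is odd, and `x^* ∞ = D` if it is even. -/
noncomputable def proxInfty (k : Type) [Field k] [NumberField k] (T : Finset ℕ) (f : k[X])
    (P : AlgebraicClosure k × AlgebraicClosure k) : ℝ :=
  if Odd f.natDegree then prox k T {none} P / 2 else prox k T {none} P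

/-- **The logarithmic error term fails on every elliptic curve for every divisor except `D = 0`,
and on every hyperelliptic curve for the fibre over infinity.** -/
theorem result :
    (∀ (k : Type) [Field k] [NumberField k] (W : WeierstrassCurve k) [W.IsElliptic]
      (D : Finset (Pts k W)),
      (D.Nonempty → ∃ r : ℕ, ∀ T : Finset ℕ, (∀ p ∈ T, p.Prime) → ∀ C b : ℝ, 0 < C →
        C < (finrank ℚ k : ℝ) / 2 * ((T.card : ℝ) - 1) →
        {P : Pts k W | P ∉ D ∧ finrank k (resField k (crd P)) ≤ r ∧
          C * log⁺ (heightA k (crd P)) + logDisc k (crd P) + b ≤ mS k W T D P}.Infinite) ∧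
      (D = ∅ → ∀ (r : ℕ) (T : Finset ℕ) (C b : ℝ), 0 < C →
        {P : Pts k W | P ∉ D ∧ finrank k (resField k (crd P)) ≤ r ∧
          C * log⁺ (heightA k (crd P)) + logDisc k (crd P) + b ≤ mS k W T D P}.Finite)) ∧
    (∀ (k : Type) [Field k] [NumberField k] (f : k[X]), f.Separable → 3 ≤ f.natDegree →
      ∃ r : ℕ, ∀ T : Finset ℕ, (∀ p ∈ T, p.Prime) → ∀ C b : ℝ, 0 < C →
        C < (finrank ℚ k : ℝ) / 2 * ((T.card : ℝ) - 1) →
        {P : AlgebraicClosure k × AlgebraicClosure k | P.2 ^ 2 = aeval P.1 f ∧
          finrank k (resField k P) ≤ r ∧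
          C * log⁺ (heightA k P) + logDisc k P + b ≤
            heightK k f P + proxInfty k T f P}.Infinite) := by
  refine ⟨?_, ?_⟩
  · intro k _ _ W _ D
    refine ⟨elliptic Pool.Agent.H455.WPE_EF.main Pool.Agent.H455.WPE_FLD.main
      (Pool.Agent.H455.WPE_HTR.main Pool.Agent.H455.WPE_FLD.main) Pool.Agent.H455.WPE_BCE.main
      k W D, ?_⟩
    rintro rfl r T C b hC
    refine (zero_divisor Pool.Agent.H455.WPE_NOR.main2 k W r C (-b) hC).subset ?_
    rintro P ⟨_, hP1, hP2⟩
    refine ⟨hP1, ?_⟩
    have h0 : mS k W T ∅ P = 0 := by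
      unfold mS
      exact Finset.sum_empty
    rw [h0] at hP2
    linarith
  · intro k _ _ f hf hd
    obtain ⟨r, hr⟩ := main_hyper k f hf hd
    refine ⟨r, ?_⟩
    intro T hT C b hC hCT
    by_cases ho : Odd f.natDegree
    · obtain ⟨m, hm⟩ := ho
      have hg : genus f.natDegree = m := by
        unfold genus
        omega
      have h1 := hr T hT C b hC hCT m (1 / 2) (by
        exact_mod_cast (by omega : 1 ≤ m)) (by
        rw [hm]; push_cast; ring)
      refine h1.mono ?_
      rintro P ⟨hP1, hP2, hP3⟩
      refine ⟨hP1, hP2, ?_⟩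
      unfold heightK proxInfty
      rw [hg, if_pos ⟨m, hm⟩]
      linarith
    · obtain ⟨m, hm⟩ := Nat.not_odd_iff_even.1 ho
      have hm2 : 2 ≤ m := by omega
      have hg : genus f.natDegree = m - 1 := by
        unfold genus
        omega
      have hg' : ((genus f.natDegree : ℕ) : ℝ) = (m : ℝ) - 1 := by
        rw [hg, Nat.cast_sub (by omega)]
        norm_num
      have h1 := hr T hT C b hC hCT ((m : ℝ) - 1) 1 (by
        have : (2 : ℝ) ≤ m := by exact_mod_cast hm2
        linarith) (by
        rw [hm]; push_cast; ring)
      refine h1.mono ?_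
      rintro P ⟨hP1, hP2, hP3⟩
      refine ⟨hP1, hP2, ?_⟩
      unfold heightK proxInfty
      rw [hg', if_neg ho]
      linarith

end Pool.Agent.Results.MP_e44225_nt.SmallestDivisors
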