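import Mathlib
import Pool.Agent.H455.WPZ
import Pool.Agent.H455.WPX_FI
import Pool.Agent.H455.WPX_ROOT
import Pool.Agent.H455.WPX_BDW
import Pool.Agent.H455.WPX_INTW
import Pool.Agent.H455.WPX_D1
import Pool.Agent.H455.WPX_D2A
import Pool.Agent.H455.WPX_D2B
import Pool.Agent.H455.WPX_P2A
import Pool.Agent.H455.WPX_H2A
import Pool.Agent.H455.WPX_DEG
import Pool.Agent.H455.WPX_SPL2

/-!
# The logarithmic error term in Vojta's inequality on superelliptic curves, `D` the fibre over
infinity

Let `k` be a number field, `n ≥ 3`, `f ∈ k[x]` a separable polynomial of degree `d ≥ 2` and `X` the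
smooth projective curve `y ^ n = f(x)`, a cyclic covering of the line of degree `n`, ramified above
the zeros of `f` and (if `n ∤ d`) above `∞`. Let `D` be the reduced fibre of `x` over `∞`. It consists
of `gcd(n, d)` points (over `k^alg`), for example of ONE point if `n` and `d` are coprime.
One has `x^* ∞ = (n / gcd(n, d)) D` and `n K_X ∼ ((n - 1) d - n - gcd(n, d)) x^* ∞`.

For a finite set `T` of primes let `S` consist of all infinite places of `k` and of the places above
the primes in `T`. There are `r` and `c > 0` such that for all `T`, all `C < c (|T| - 1)` and all `b`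
the inequality
`h_K(P) + m_S(D, P) < C log⁺ h_A(P) + d(P) + b`, `A = x^* O(1)`,
fails for infinitely many points `P` of degree at most `r`. So no constant `C` works for all `S`.

The points lie above `S`-units: `z ^ n = (x - e₁) / (x - e₂)` defines an unramified covering of `X`,
`f(e₁) = f(e₂) = 0`, on which `u = (z ^ n - 1) / (z - 1) ^ n` has its zeros and poles above `D`.
-/

set_option autoImplicit false

namespace Pool.Agent.Results.MP_e44225_nt.SuperellipticCurves

open NumberField Real Polynomial Module
open Pool.Agent.H505.VL Pool.Agent.H455.WP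

/-- The height for the canonical sheaf of the curve `y ^ n = f(x)`,
`n K_X ∼ ((n - 1) d - n - gcd(n, d)) x^* ∞`, `d = deg f`. -/
noncomputable def heightK (k : Type) [Field k] [NumberField k] (n : ℕ) (f : k[X])
    (P : AlgebraicClosure k × AlgebraicClosure k) : ℝ :=
  (((n : ℝ) - 1) * f.natDegree - n - Nat.gcd n f.natDegree) / n * heightA k P

/-- The proximity function `m_S(D, P)` of the reduced fibre `D` of `x` over `∞` on the curve
`y ^ n = f(x)`, `x^* ∞ = (n / gcd(n, deg f)) D`. -/
noncomputable def proxInfty (k : Type) [Field k] [NumberField k] (T : Finset ℕ) (n : ℕ) (f : k[X])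
    (P : AlgebraicClosure k × AlgebraicClosure k) : ℝ :=
  (Nat.gcd n f.natDegree : ℝ) / n * prox k T {none} P

/-- **The logarithmic error term fails on every curve `y ^ n = f(x)`, `n ≥ 3`, `f` separable of
degree at least two, for the fibre over infinity.** -/
theorem result (k : Type) [Field k] [NumberField k] (n : ℕ) (hn : 3 ≤ n) (f : k[X])
    (hf : f.Separable) (hd : 2 ≤ f.natDegree) :
    ∃ (r : ℕ) (c : ℝ), 0 < c ∧ ∀ T : Finset ℕ, (∀ p ∈ T, p.Prime) → ∀ C b : ℝ, 0 < C →
      C < c * ((T.card : ℝ) - 1) →
      {P : AlgebraicClosure k × AlgebraicClosure k | P.2 ^ n = aeval P.1 f ∧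
        finrank k (resField k P) ≤ r ∧
        C * log⁺ (heightA k P) + logDisc k P + b ≤
          heightK k n f P + proxInfty k T n f P}.Infinite := by
  obtain ⟨r, c, hc0, h⟩ := mainAllX Pool.Agent.H455.WPX_FI.main Pool.Agent.H455.WPX_ROOT.main
    (Pool.Agent.H455.WPX_D1.main Pool.Agent.H455.WPX_BDW.main Pool.Agent.H455.WPX_INTW.main)
    (Pool.Agent.H455.WPX_D2A.main Pool.Agent.H455.WPX_BDW.main Pool.Agent.H455.WPX_INTW.main)
    Pool.Agent.H455.WPX_D2B.main Pool.Agent.H455.WPX_P2A.main
    (Pool.Agent.H455.WPX_H2A.main Pool.Agent.H455.WPX_BDW.main Pool.Agent.H455.WPX_INTW.main)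
    Pool.Agent.H455.WPX_DEG.main Pool.Agent.H455.WPX_SPL2.main k n hn f hf hd
  refine ⟨r, c, hc0, ?_⟩
  intro T hT C b hC hCT
  have hn0 : (0 : ℝ) < n := by
    have : 0 < n := by omega
    exact_mod_cast this
  have hgb : (n : ℝ) + Nat.gcd n f.natDegree ≤ ((n : ℝ) - 1) * f.natDegree := by
    have h1 := gcd_bound n f.natDegree hn hd
    have h2 : (((n - 1 : ℕ) : ℝ)) = (n : ℝ) - 1 := by
      rw [Nat.cast_sub (by omega)]; norm_num
    rw [← h2]
    exact_mod_cast h1
  have h1 := h T hT C b hC hCT
    ((((n : ℝ) - 1) * f.natDegree - n - Nat.gcd n f.natDegree) / n)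
    ((Nat.gcd n f.natDegree : ℝ) / n) (div_nonneg (by linarith) hn0.le) (by
      field_simp
      ring)
  exact h1

end Pool.Agent.Results.MP_e44225_nt.SuperellipticCurves
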